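import Pool.Agent.P.MP_339e98_lc.Defs

/-! Formulas in one variable. -/

set_option autoImplicit false

namespace Pool.Agent.P.MP_339e98_lc.F

/-- The only variable that occurs is the first one. -/
def OneVar : Form → Prop
  | .var n => n = 0
  | .bot => True
  | .mul φ ψ => OneVar φ ∧ OneVar ψ
  | .arr φ ψ => OneVar φ ∧ OneVar ψ
  | .inf φ ψ => OneVar φ ∧ OneVar ψ

end Pool.Agent.P.MP_339e98_lc.F
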