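import Pool.Agent.P.MP_339e98_lc.Basic

/-! The involutive chain of facts of a numerical monoid with a threshold. -/

set_option autoImplicit false

namespace Pool.Agent.P.MP_339e98_lc.F

open MTLAlgebra

variable {S : AddSubmonoid ℕ} {T : ℕ}

/-- The polar of a set. -/
def perp (T : ℕ) (U : Set S) : Set S := {t | ∀ s ∈ U, T < s.1 + t.1}

/-- The facts. -/
def Fa (S : AddSubmonoid ℕ) (T : ℕ) : Type := {W : Set S // ∃ U, W = perp T U}

namespace Fa

theorem up (W : Fa S T) {s t : S} (h : s ∈ W.1) (e : s.1 ≤ t.1) : t ∈ W.1 := by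
  obtain ⟨_, U, rfl⟩ := W
  exact fun u hu => (h u hu).trans_le (Nat.add_le_add_left e _)

theorem big (W : Fa S T) {t : S} (e : T < t.1) : t ∈ W.1 := by
  obtain ⟨_, U, rfl⟩ := W
  exact fun u _ => e.trans_le (Nat.le_add_left _ _)

noncomputable instance : LinearOrder (Fa S T) where
  le U W := U.1 ⊆ W.1
  le_refl _ := subset_rfl
  le_trans _ _ _ := Set.Subset.trans
  le_antisymm _ _ h k := Subtype.ext (h.antisymm k)
  le_total U W := by
    by_contra c
    obtain ⟨⟨s, a, a'⟩, t, b, b'⟩ := (not_or.1 c).imp Set.not_subset.1 Set.not_subset.1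
    exact (le_total s.1 t.1).elim (fun e => b' (U.up a e)) fun e => a' (W.up b e)
  toDecidableLE := Classical.decRel _

theorem le_def {U W : Fa S T} : U ≤ W ↔ ∀ t ∈ U.1, t ∈ W.1 := Iff.rfl

/-- The closure of a set. -/
def cl (T : ℕ) (U : Set S) : Fa S T := ⟨perp T (perp T U), _, rfl⟩

theorem cl_le {U : Set S} {W : Fa S T} : cl T U ≤ W ↔ ∀ t ∈ U, t ∈ W.1 := by
  refine ⟨fun h t ht => h fun s hs => add_comm t.1 s.1 ▸ hs t ht, fun h t ht => ?_⟩
  obtain ⟨_, V, rfl⟩ := W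
  exact fun s hs => ht s fun u hu => add_comm s.1 u.1 ▸ h u hu s hs

/-- The residual of a fact by a set. -/
def res (U : Set S) (W : Fa S T) : Fa S T := ⟨{t | ∀ u ∈ U, t + u ∈ W.1}, by
  obtain ⟨_, V, rfl⟩ := W
  refine ⟨{s | ∃ u ∈ U, ∃ v ∈ V, s = u + v}, Set.ext fun t => ⟨?_, fun h u hu v hv => ?_⟩⟩
  · rintro h _ ⟨u, hu, v, hv, rfl⟩
    have := h u hu v hv
    simp only [AddSubmonoid.coe_add] at this ⊢
    omega
  · have := h _ ⟨u, hu, v, hv, rfl⟩
    simp only [AddSubmonoid.coe_add] at this ⊢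
    omega⟩

instance : BoundedOrder (Fa S T) where
  top := ⟨Set.univ, ∅, by simp [perp]⟩
  le_top _ := Set.subset_univ _
  bot := ⟨perp T Set.univ, _, rfl⟩
  bot_le W t h := W.big (by simpa using h 0 trivial)

theorem mem_bot {t : S} : t ∈ (⊥ : Fa S T).1 ↔ T < t.1 :=
  ⟨fun h => by simpa using h 0 trivial, big _⟩

instance : Mul (Fa S T) := ⟨fun U V => cl T {s | ∃ u ∈ U.1, ∃ v ∈ V.1, s = u + v}⟩

theorem mul_le {U V W : Fa S T} : U * V ≤ W ↔ ∀ u ∈ U.1, ∀ v ∈ V.1, u + v ∈ W.1 :=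
  cl_le.trans ⟨fun h u a v b => h _ ⟨u, a, v, b, rfl⟩, by
    rintro h _ ⟨u, a, v, b, rfl⟩; exact h u a v b⟩

theorem resid (U V W : Fa S T) : U * V ≤ W ↔ U ≤ res V.1 W := mul_le

theorem comm (U V : Fa S T) : U * V = V * U := eq_of_forall_ge_iff fun _ => by
  rw [mul_le, mul_le]
  exact ⟨fun h u a v b => add_comm v u ▸ h v b u a, fun h u a v b => add_comm v u ▸ h v b u a⟩

theorem mul3 {U V W Z : Fa S T} :
    U * V * W ≤ Z ↔ ∀ u ∈ U.1, ∀ v ∈ V.1, ∀ w ∈ W.1, u + v + w ∈ Z.1 := by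
  rw [resid, mul_le]; rfl

instance : CommMonoid (Fa S T) where
  one := ⊤
  mul_comm := comm
  mul_assoc U V W := eq_of_forall_ge_iff fun _ => by
    rw [comm U (V * W), mul3, mul3]
    exact ⟨fun h v b w c u a => by simpa only [add_comm, add_left_comm] using h u a v b w c,
      fun h u a v b w c => by simpa only [add_comm, add_left_comm] using h v b w c u a⟩
  one_mul U := eq_of_forall_ge_iff fun W => mul_le.trans
    ⟨fun h u a => zero_add u ▸ h 0 trivial u a, fun h t _ u a => W.up (h a) (Nat.le_add_left _ _)⟩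
  mul_one U := eq_of_forall_ge_iff fun W => mul_le.trans
    ⟨fun h u a => add_zero u ▸ h u a 0 trivial, fun h u a t _ => W.up (h a) (Nat.le_add_right _ _)⟩

noncomputable instance alg : MTLAlgebra (Fa S T) :=
  ofLinear (Fa S T) (fun U W => res U.1 W) resid rfl

theorem mem_imp {U W : Fa S T} {t : S} : t ∈ (imp U W).1 ↔ ∀ u ∈ U.1, t + u ∈ W.1 := Iff.rfl

theorem mem_imp_cl {a t : S} {W : Fa S T} : t ∈ (imp (cl T {a}) W).1 ↔ t + a ∈ W.1 :=
  ⟨fun h => h a (cl_le.1 le_rfl a rfl), fun h u hu =>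
    add_comm u t ▸ (cl_le (W := res {t} W)).2 (by
      rintro _ rfl _ rfl; rwa [add_comm]) hu t rfl⟩

theorem invol (U : Fa S T) : imp (imp U ⊥) ⊥ ≤ U := by
  obtain ⟨_, V, rfl⟩ := U
  intro t ht s hs
  have := mem_bot.1 (ht s fun u hu => mem_bot.2 (hu s hs))
  rwa [add_comm] at this

theorem cl_pow (a : S) : ∀ j : ℕ, cl T {a} ^ j = cl T {j • a}
  | 0 => le_antisymm (fun t _ s hs => by
      have := hs _ rfl
      simp only [zero_smul, ZeroMemClass.coe_zero] at this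
      omega) (le_one' _)
  | j + 1 => eq_of_forall_ge_iff fun W => by
    rw [pow_succ, cl_pow a j, residuation, cl_le, cl_le, succ_nsmul]
    simp only [Set.mem_singleton_iff, forall_eq, mem_imp_cl]

theorem chain : IsChainOf IMTL (Fa S T) := ⟨fun x y => le_total x y, by
  rintro _ ⟨φ, rfl⟩ v
  exact imp_eq_one.2 (invol _)⟩

theorem bot_ne : (⊥ : Fa S T) ≠ 1 := fun h => by
  have : (0 : S) ∈ (⊥ : Fa S T).1 := h ▸ trivial
  simpa using mem_bot.1 this

end Fa

end Pool.Agent.P.MP_339e98_lc.F
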