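import Pool.Agent.P.MP_339e98_lc.F.Defs
import Pool.Agent.P.MP_339e98_lc.F.Phase
import Pool.Agent.P.MP_339e98_lc.Lind
import Pool.Agent.P.MP_339e98_lc.Neg

/-! No finite family of chains is complete for MTL or IMTL. -/

set_option autoImplicit false

namespace Pool.Agent.P.MP_339e98_lc.F

open MTLAlgebra

universe u

/-- The negation of the power `n + 1 - j` implies the power `j`. -/
def qf (n v j : ℕ) : Form := ((Form.var v).pow (n + 1 - j)).neg.arr ((Form.var v).pow j)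

/-- The equations below `i`. -/
def ef (n v : ℕ) : ℕ → Form
  | 0 => (((Form.var v).pow (n + 1)).neg.inf (qf n v n)).inf ((Form.var v).neg.neg.arr (.var v))
  | j + 1 => (ef n v j).inf (qf n v j)

/-- The type number `i`. -/
def df (n v i : ℕ) : Form := (ef n v i).inf ((qf n v i).arr (.var v))

theorem one_pow' : ∀ j, OneVar ((Form.var 0).pow j)
  | 0 => ⟨trivial, trivial⟩
  | j + 1 => ⟨one_pow' j, rfl⟩

theorem one_qf (n j : ℕ) : OneVar (qf n 0 j) := ⟨⟨one_pow' _, trivial⟩, one_pow' _⟩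

theorem one_ef (n : ℕ) : ∀ i, OneVar (ef n 0 i)
  | 0 => ⟨⟨⟨one_pow' _, trivial⟩, one_qf _ _⟩, ⟨⟨rfl, trivial⟩, trivial⟩, rfl⟩
  | j + 1 => ⟨one_ef n j, one_qf _ _⟩

theorem one_fpow {φ : Form} (h : OneVar φ) : ∀ j, OneVar (φ.pow j)
  | 0 => ⟨trivial, trivial⟩
  | j + 1 => ⟨one_fpow h j, h⟩

section
variable {A : Type u} [MTLAlgebra A]

/-- The value of `qf`. -/
def q (n : ℕ) (x : A) (j : ℕ) : A := imp (imp (x ^ (n + 1 - j)) ⊥) (x ^ j)

theorem ev_qf (n v j : ℕ) (w : ℕ → A) : (qf n v j).eval w = q n (w v) j := by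
  simp only [qf, q, Form.neg, Form.eval, eval_pow]

theorem ev_ef {n v v' : ℕ} {w w' : ℕ → A} (h : w v = w' v') :
    ∀ i, (ef n v i).eval w = (ef n v' i).eval w'
  | 0 => by simp only [ef, Form.neg, Form.eval, eval_pow, ev_qf, h]
  | j + 1 => by simp only [ef, Form.eval, ev_ef h j, ev_qf, h]

theorem ev_df {n v v' : ℕ} {w w' : ℕ → A} (h : w v = w' v') (i : ℕ) :
    (df n v i).eval w = (df n v' i).eval w' := by
  simp only [df, Form.eval, ev_ef h, ev_qf, h]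

theorem inf_one {a b : A} : a ⊓ b = 1 ↔ a = 1 ∧ b = 1 := by rw [one_eq_top, inf_eq_top_iff]

theorem ef_one {n v : ℕ} {w : ℕ → A} : ∀ i, (ef n v i).eval w = 1 ↔
    ((w v ^ (n + 1) ≤ ⊥ ∧ q n (w v) n = 1) ∧ imp (imp (w v) ⊥) ⊥ ≤ w v) ∧ ∀ j < i, q n (w v) j = 1
  | 0 => by simp [ef, Form.neg, Form.eval, eval_pow, ev_qf, inf_one, imp_eq_one]
  | j + 1 => by
    simp only [ef, Form.eval, inf_one, ef_one j, ev_qf, Nat.forall_lt_succ_right, and_assoc]

theorem uniq {n : ℕ} {x y : A} (h : x ≤ y) (a : q n x n = 1) (b : imp (imp x ⊥) ⊥ ≤ x)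
    (c : y ^ (n + 1) ≤ ⊥) : y ≤ x := by
  rw [q, imp_eq_one, Nat.add_sub_cancel_left, pow_one] at a
  refine le_trans ((residuation _ _ _).1 (le_trans ?_ c)) b
  rw [pow_succ']
  exact mul_le_mul_l (a.trans (pow_le_pow' h n)) y

theorem incomp (htot : ∀ x y : A, x ≤ y ∨ y ≤ x) {n i i' : ℕ} (h : i < i') (w : ℕ → A)
    (a : (df n 0 i).eval w = 1) (b : (df n 1 i').eval w = 1) : (1 : A) ≤ ⊥ := by
  simp only [df, Form.eval, inf_one, ef_one, ev_qf, imp_eq_one] at a b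
  obtain ⟨⟨⟨⟨a1, a2⟩, a3⟩, -⟩, a4⟩ := a
  obtain ⟨⟨⟨⟨b1, b2⟩, b3⟩, b4⟩, -⟩ := b
  have e : w 0 = w 1 := (htot _ _).elim (fun k => le_antisymm k (uniq k a2 a3 b1))
    fun k => le_antisymm (uniq k b2 b3 a1) k
  rw [e, b4 i h] at a4
  rwa [le_antisymm (le_one' _) a4, one_pow] at b1

theorem ev_impN (p θ : Form) (w : ℕ → A) (z : A) :
    ∀ a : ℕ, z ≤ (impN p a θ).eval w ↔ z * p.eval w ^ a ≤ θ.eval w := fun a => by
  induction a generalizing z with
  | zero => simp [impN]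
  | succ a ih => rw [impN, Form.eval, ← residuation, ih, pow_succ', mul_assoc]

theorem pow_anti (x : A) {a b : ℕ} (h : a ≤ b) : x ^ b ≤ x ^ a := by
  obtain ⟨c, rfl⟩ := Nat.exists_eq_add_of_le h
  rw [pow_add]
  exact mul_le_left' _ _

end

theorem unif (n i i' : ℕ) : ∃ K : ℕ, i < i' → ∀ (A : Type u) [MTLAlgebra A], IsChainOf MTL A →
    ∀ w w' : ℕ → A, (df n 0 i).eval w ^ K ≤ ⊥ ∨ (df n 0 i').eval w' ^ K ≤ ⊥ := by
  by_cases h : i < i'
  swap
  · exact ⟨0, fun h' => absurd h' h⟩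
  have : Provable (insert (df n 0 i) (insert (df n 1 i') MTL)) .bot := by
    by_contra c
    obtain ⟨T, h1, hT, h2⟩ := exists_linear c
    refine h2 (Lind.mk_eq_one.1 (le_antisymm (le_one' _)
      (incomp (A := Lind T hT) (n := n) le_total h (fun n => Lind.mk hT (.var n)) ?_ ?_)))
    · rw [Lind.eval_mk, Lind.mk_eq_one]; exact .ax (h1 (.inl rfl))
    · rw [Lind.eval_mk, Lind.mk_eq_one]; exact .ax (h1 (.inr (.inl rfl)))
  obtain ⟨a, ha⟩ := local_deduction this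
  obtain ⟨b, hb⟩ := local_deduction ha
  refine ⟨b + a, fun _ A _ hA w w' => ?_⟩
  have e := (sound hA hb fun m => if m = 0 then w 0 else w' 0).ge
  rw [ev_impN, ev_impN, one_mul, ev_df (v := 1) (v' := 0) (w' := w') (by rfl),
    ev_df (v := 0) (v' := 0) (w := fun m => if m = 0 then w 0 else w' 0) (w' := w) (by rfl)] at e
  rw [pow_add, pow_add]
  exact (hA.1 _ _).imp (fun k => (mul_le_mul_r (pow_le_pow' k b) _).trans e)
    fun k => (mul_le_mul_l (pow_le_pow' k a) _).trans e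

/-- The numerical monoid generated by `2` and `2 g + 1`. -/
def S (g : ℕ) : AddSubmonoid ℕ where
  carrier := {s | s % 2 = 0 ∨ 2 * g + 1 ≤ s}
  zero_mem' := .inl rfl
  add_mem' := by
    intro a b ha hb
    simp only [Set.mem_ofPred_eq] at ha hb ⊢
    omega

theorem q_one {g n j : ℕ} (hj : j ≤ n + 1) : q n (Fa.cl (2 * n) {(⟨2, .inl rfl⟩ : S g)}) j = 1 ↔
    ∀ t u : S g, 2 * j < t.1 + 2 → 2 * n < 2 * j + u.1 → 2 * n < u.1 + t.1 := by
  rw [q, imp_eq_one, Fa.cl_pow, Fa.cl_pow, Fa.le_def]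
  simp only [Fa.mem_imp_cl, Fa.mem_bot]
  simp only [Fa.cl, perp, Set.mem_ofPred_eq, Set.mem_singleton_iff,
    forall_eq, AddSubmonoid.coe_add, AddSubmonoidClass.coe_nsmul, smul_eq_mul]
  exact ⟨fun h t u a b => h t (by omega) u (by omega), fun h t a u b => h t u (by omega) (by omega)⟩

theorem model {g n : ℕ} (h1 : 1 ≤ g) (h2 : 2 * g + 1 ≤ n) :
    (df n 0 (g + 1)).eval (fun _ => Fa.cl (2 * n) {(⟨2, .inl rfl⟩ : S g)}) = 1 := by
  simp only [df, Form.eval, inf_one, ef_one, ev_qf, imp_eq_one]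
  refine ⟨⟨⟨⟨?_, (q_one (by omega)).2 ?_⟩, Fa.invol _⟩, fun j hj => (q_one (by omega)).2 ?_⟩, ?_⟩
  · rw [Fa.cl_pow, Fa.cl_le]
    rintro _ rfl
    simp only [Fa.mem_bot, AddSubmonoidClass.coe_nsmul, smul_eq_mul]
    omega
  · rintro ⟨t, ht | ht⟩ ⟨u, hu | hu⟩ <;> dsimp only <;> omega
  · rintro ⟨t, ht | ht⟩ ⟨u, hu | hu⟩ <;> dsimp only <;> omega
  · rintro ⟨t, ht⟩ h s hs
    have a : 2 * n < 2 + s.1 := hs _ rfl
    have b : t ≠ 0 := by
      rintro rfl
      have := (q_one (g := g) (n := n) (j := g + 1) (by omega)).1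
        (le_antisymm (le_one' _) fun z _ => Fa.up _ h (Nat.zero_le _))
        ⟨2 * g + 1, .inr le_rfl⟩ ⟨2 * (n - g) - 1, .inr (by omega)⟩
      dsimp only at this
      omega
    rcases ht with ht | ht <;> dsimp only <;> omega

theorem no_finite (k : ℕ) (A : Fin k → Type u) [∀ i, MTLAlgebra (A i)]
    (hA : ∀ i, IsChainOf MTL (A i)) :
    ∃ φ, OneVar φ ∧ ¬ Provable IMTL φ ∧ ∀ i, Taut (A i) φ := by
  choose K hK using unif.{u} (2 * k + 3)
  let N := ∑ p : Fin (k + 1) × Fin (k + 1), K (p.1 + 2) (p.2 + 2)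
  have : ∃ i : Fin (k + 1), ∀ c, Taut (A c) ((df (2 * k + 3) 0 (i + 2)).pow N).neg := by
    by_contra c
    simp only [Taut, not_exists, not_forall, Form.neg, Form.eval, eval_pow, imp_eq_one] at c
    choose c w hw using c
    have key : ∀ i i' : Fin (k + 1), i < i' → c i ≠ c i' := fun i i' h e => by
      have a := hw i
      have b := hw i'
      have m : K (i + 2) (i' + 2) ≤ N := Finset.single_le_sum
        (f := fun p : Fin (k + 1) × Fin (k + 1) => K (p.1 + 2) (p.2 + 2))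
        (fun _ _ => Nat.zero_le _) (Finset.mem_univ (i, i'))
      generalize w i = x at a
      generalize w i' = y at b
      generalize c i = d at *
      subst e
      exact (hK _ _ (Nat.add_lt_add_right h 2) _ (hA _) x y).elim
        (fun e => a ((pow_anti _ m).trans e)) fun e => b ((pow_anti _ m).trans e)
    obtain ⟨i, i', a, b⟩ := Fintype.exists_ne_map_eq_of_card_lt c (by simp)
    exact (lt_or_gt_of_ne a).elim (key _ _ · b) (key _ _ · b.symm)
  obtain ⟨i, hi⟩ := this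
  refine ⟨_, ?_, fun h => ?_, hi⟩
  · exact ⟨one_fpow (φ := df _ 0 _) ⟨one_ef _ _, one_qf _ _, rfl⟩ _, trivial⟩
  exact not_taut_pow Fa.bot_ne _ _ (model (g := i + 1) (by omega) (by omega)) N (sound Fa.chain h)

end Pool.Agent.P.MP_339e98_lc.F
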